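import Mathlib

set_option autoImplicit false

/-! Sets of positive integers with a positive logarithmic weight: the sum of the reciprocals
diverges. -/

namespace N654.PY

open Finset Filter

open scoped Classical in
/-- blocks: the weight of `(4^j, 4^(j+1)]` -/
theorem block (P : ℕ → Prop) (ρ : ℝ) (hρ : 0 < ρ)
    (h : Tendsto (fun x : ℝ => (∑ p ∈ (Icc 1 ⌊x⌋₊).filter P, Real.log p) / x) atTop (nhds ρ)) :
    ∃ j₀ : ℕ, ∀ j : ℕ, j₀ ≤ j →
      ρ / (8 * Real.log 4) * (1 / ((j : ℝ) + 1)) ≤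
        ∑ p ∈ (Ioc (4 ^ j) (4 ^ (j + 1))).filter P, 1 / (p : ℝ) := by
  have h1 : ∀ᶠ x : ℝ in atTop, ρ / 2 < (∑ p ∈ (Icc 1 ⌊x⌋₊).filter P, Real.log p) / x :=
    h.eventually_const_lt (by linarith)
  have h2 : ∀ᶠ x : ℝ in atTop, (∑ p ∈ (Icc 1 ⌊x⌋₊).filter P, Real.log p) / x < 3 / 2 * ρ :=
    h.eventually_lt_const (by linarith)
  obtain ⟨X, hX⟩ := eventually_atTop.1 (h1.and h2)
  have hpow : Tendsto (fun j : ℕ => (4 : ℝ) ^ j) atTop atTop :=
    tendsto_pow_atTop_atTop_of_one_lt (by norm_num)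
  obtain ⟨j₀, hj₀⟩ := eventually_atTop.1 (hpow.eventually_ge_atTop X)
  refine ⟨j₀, ?_⟩
  intro j hj
  have hlow := (hX ((4 : ℝ) ^ (j + 1)) (hj₀ (j + 1) (by omega))).1
  have hupp := (hX ((4 : ℝ) ^ j) (hj₀ j hj)).2
  have hp0 : (0 : ℝ) < 4 ^ j := by positivity
  have hp1 : (0 : ℝ) < 4 ^ (j + 1) := by positivity
  rw [lt_div_iff₀ hp1] at hlow
  rw [div_lt_iff₀ hp0] at hupp
  have hf0 : ⌊(4 : ℝ) ^ j⌋₊ = 4 ^ j := by
    have : ((4 : ℝ) ^ j) = ((4 ^ j : ℕ) : ℝ) := by push_cast; rfl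
    rw [this, Nat.floor_natCast]
  have hf1 : ⌊(4 : ℝ) ^ (j + 1)⌋₊ = 4 ^ (j + 1) := by
    have : ((4 : ℝ) ^ (j + 1)) = ((4 ^ (j + 1) : ℕ) : ℝ) := by push_cast; rfl
    rw [this, Nat.floor_natCast]
  rw [hf1] at hlow
  rw [hf0] at hupp
  have hle : 4 ^ j ≤ 4 ^ (j + 1) := Nat.pow_le_pow_right (by norm_num) (by omega)
  have hsplit : ∑ p ∈ (Icc 1 (4 ^ (j + 1))).filter P, Real.log p =
      ∑ p ∈ (Icc 1 (4 ^ j)).filter P, Real.log p +
        ∑ p ∈ (Ioc (4 ^ j) (4 ^ (j + 1))).filter P, Real.log p := by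
    rw [← Finset.sum_union]
    · congr 1
      ext p
      simp only [mem_filter, mem_Icc, mem_union, mem_Ioc]
      constructor
      · rintro ⟨⟨ha, hb⟩, hc⟩
        by_cases hd : p ≤ 4 ^ j
        · exact Or.inl ⟨⟨ha, hd⟩, hc⟩
        · exact Or.inr ⟨⟨by omega, hb⟩, hc⟩
      · rintro (⟨⟨ha, hb⟩, hc⟩ | ⟨⟨ha, hb⟩, hc⟩)
        · exact ⟨⟨ha, hb.trans hle⟩, hc⟩
        · exact ⟨⟨by omega, hb⟩, hc⟩
    · rw [Finset.disjoint_left]
      intro p hp hp'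
      simp only [mem_filter, mem_Icc, mem_Ioc] at hp hp'
      omega
  have hblock : ρ / 2 * 4 ^ j ≤ ∑ p ∈ (Ioc (4 ^ j) (4 ^ (j + 1))).filter P, Real.log p := by
    have h4 : (4 : ℝ) ^ (j + 1) = 4 * 4 ^ j := by ring
    rw [h4] at hlow
    nlinarith
  -- compare the logarithms with the reciprocals
  have hL : 0 < Real.log 4 := Real.log_pos (by norm_num)
  have hj1 : (0 : ℝ) < (j : ℝ) + 1 := by positivity
  have hcmp : ∑ p ∈ (Ioc (4 ^ j) (4 ^ (j + 1))).filter P, Real.log p ≤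
      (((j : ℝ) + 1) * Real.log 4 * 4 ^ (j + 1)) *
        ∑ p ∈ (Ioc (4 ^ j) (4 ^ (j + 1))).filter P, 1 / (p : ℝ) := by
    rw [Finset.mul_sum]
    refine Finset.sum_le_sum ?_
    intro p hp
    simp only [mem_filter, mem_Ioc] at hp
    have hp1' : (1 : ℝ) ≤ p := by
      have : 1 ≤ p := by
        have := hp.1.1
        omega
      exact_mod_cast this
    have hp0' : (0 : ℝ) < p := by linarith
    have hple : (p : ℝ) ≤ 4 ^ (j + 1) := by exact_mod_cast hp.1.2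
    have hlog : Real.log p ≤ ((j : ℝ) + 1) * Real.log 4 := by
      have := Real.log_le_log hp0' hple
      rw [Real.log_pow] at this
      push_cast at this
      exact this
    have hq : (1 : ℝ) ≤ 4 ^ (j + 1) * (1 / (p : ℝ)) := by
      rw [mul_one_div, le_div_iff₀ hp0']
      linarith
    have hM : 0 ≤ ((j : ℝ) + 1) * Real.log 4 := by positivity
    calc Real.log p ≤ ((j : ℝ) + 1) * Real.log 4 := hlog
      _ = ((j : ℝ) + 1) * Real.log 4 * 1 := by ring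
      _ ≤ ((j : ℝ) + 1) * Real.log 4 * (4 ^ (j + 1) * (1 / (p : ℝ))) :=
          mul_le_mul_of_nonneg_left hq hM
      _ = ((j : ℝ) + 1) * Real.log 4 * 4 ^ (j + 1) * (1 / (p : ℝ)) := by ring
  set S := ∑ p ∈ (Ioc (4 ^ j) (4 ^ (j + 1))).filter P, 1 / (p : ℝ) with hS
  have h5 : ρ / 2 * 4 ^ j ≤ (((j : ℝ) + 1) * Real.log 4 * 4 ^ (j + 1)) * S := hblock.trans hcmp
  have h6 : ρ / (8 * Real.log 4) * (1 / ((j : ℝ) + 1)) =
      (ρ / 2 * 4 ^ j) / (((j : ℝ) + 1) * Real.log 4 * 4 ^ (j + 1)) := by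
    have h4 : (4 : ℝ) ^ (j + 1) = 4 * 4 ^ j := by ring
    rw [h4]
    field_simp
    norm_num
  rw [h6, div_le_iff₀ (by positivity)]
  linarith

open scoped Classical in
/-- the sum of the reciprocals diverges -/
theorem diverge (P : ℕ → Prop) (ρ : ℝ) (hρ : 0 < ρ)
    (h : Tendsto (fun x : ℝ => (∑ p ∈ (Icc 1 ⌊x⌋₊).filter P, Real.log p) / x) atTop (nhds ρ))
    (y : ℕ) (M₀ : ℝ) : ∃ U : Finset ℕ, (∀ p ∈ U, P p ∧ y < p) ∧ M₀ ≤ ∑ p ∈ U, 1 / (p : ℝ) := by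
  obtain ⟨j₀', hj₀'⟩ := block P ρ hρ h
  set j₀ := max j₀' y with hj₀
  have hL : 0 < Real.log 4 := Real.log_pos (by norm_num)
  set κ := ρ / (8 * Real.log 4) with hκ
  have hκ0 : 0 < κ := by positivity
  have key : ∀ n : ℕ, κ * ∑ j ∈ range n, 1 / ((j : ℝ) + 1) - κ * ∑ j ∈ range j₀, 1 / ((j : ℝ) + 1) ≤
      ∑ p ∈ (Ioc (4 ^ j₀) (4 ^ n)).filter P, 1 / (p : ℝ) := by
    intro n
    induction n with
    | zero =>
      have h1 : 0 ≤ ∑ p ∈ (Ioc (4 ^ j₀) (4 ^ 0)).filter P, 1 / (p : ℝ) :=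
        Finset.sum_nonneg fun p _ => by positivity
      have h2 : 0 ≤ κ * ∑ j ∈ range j₀, 1 / ((j : ℝ) + 1) :=
        mul_nonneg hκ0.le (Finset.sum_nonneg fun j _ => by positivity)
      simp only [range_zero, sum_empty, mul_zero]
      linarith
    | succ n ih =>
      by_cases hn : n + 1 ≤ j₀
      · have h1 : 0 ≤ ∑ p ∈ (Ioc (4 ^ j₀) (4 ^ (n + 1))).filter P, 1 / (p : ℝ) :=
          Finset.sum_nonneg fun p _ => by positivity
        have h2 : ∑ j ∈ range (n + 1), 1 / ((j : ℝ) + 1) ≤ ∑ j ∈ range j₀, 1 / ((j : ℝ) + 1) :=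
          Finset.sum_le_sum_of_subset_of_nonneg (range_subset_range.2 hn)
            fun j _ _ => by positivity
        have h3 := mul_le_mul_of_nonneg_left h2 hκ0.le
        linarith
      · have hn' : j₀ ≤ n := by omega
        have hb := hj₀' n ((le_max_left _ _).trans hn')
        have hle0 : 4 ^ j₀ ≤ 4 ^ n := Nat.pow_le_pow_right (by norm_num) hn'
        have hle1 : 4 ^ n ≤ 4 ^ (n + 1) := Nat.pow_le_pow_right (by norm_num) (by omega)
        have hsplit : ∑ p ∈ (Ioc (4 ^ j₀) (4 ^ (n + 1))).filter P, 1 / (p : ℝ) =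
            ∑ p ∈ (Ioc (4 ^ j₀) (4 ^ n)).filter P, 1 / (p : ℝ) +
              ∑ p ∈ (Ioc (4 ^ n) (4 ^ (n + 1))).filter P, 1 / (p : ℝ) := by
          rw [← Finset.sum_union]
          · congr 1
            ext p
            simp only [mem_filter, mem_union, mem_Ioc]
            constructor
            · rintro ⟨⟨ha, hb⟩, hc⟩
              by_cases hd : p ≤ 4 ^ n
              · exact Or.inl ⟨⟨ha, hd⟩, hc⟩
              · exact Or.inr ⟨⟨by omega, hb⟩, hc⟩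
            · rintro (⟨⟨ha, hb⟩, hc⟩ | ⟨⟨ha, hb⟩, hc⟩)
              · exact ⟨⟨ha, hb.trans hle1⟩, hc⟩
              · exact ⟨⟨by omega, hb⟩, hc⟩
          · rw [Finset.disjoint_left]
            intro p hp hp'
            simp only [mem_filter, mem_Ioc] at hp hp'
            omega
        rw [hsplit, Finset.sum_range_succ]
        rw [mul_add]
        linarith
  have hdiv := Real.tendsto_sum_range_one_div_nat_succ_atTop
  obtain ⟨n, hn⟩ := (hdiv.eventually_ge_atTop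
    ((M₀ + κ * ∑ j ∈ range j₀, 1 / ((j : ℝ) + 1)) / κ)).exists
  refine ⟨(Ioc (4 ^ j₀) (4 ^ n)).filter P, ?_, ?_⟩
  · intro p hp
    simp only [mem_filter, mem_Ioc] at hp
    refine ⟨hp.2, ?_⟩
    have h1 : y ≤ j₀ := le_max_right _ _
    have h2 : j₀ < 4 ^ j₀ := Nat.lt_pow_self (by norm_num)
    omega
  · refine le_trans ?_ (key n)
    rw [div_le_iff₀ hκ0] at hn
    linarith

end N654.PY
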