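import Pool.Agent.N912.PY.Stm
import Pool.Agent.N912.LC.Stm
import Pool.Agent.N654.PY.Div

set_option autoImplicit false

/-! Project PY (helper912), part PY10: many primes are norms of elements of `ℤ[√(-c)]`. -/

namespace N654.PY

open Finset Filter
open Pool.Agent.W78.GA (Qd nm lat)
open Pool.Agent.N912.LC (S_LC5 Iv)
open Pool.Agent.N912.PY (S_GP PSet mass nn)

theorem iv_one (c : ℤ) : Iv 0 c 1 0 := by
  refine ⟨le_refl 1, ?_, ?_⟩
  · simp
  · intro g hg _ _
    exact isUnit_of_dvd_one (by simpa using hg)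

theorem gp_of (h5 : S_LC5) : S_GP := by
  classical
  intro c y hc M₀
  obtain ⟨M, _, hM⟩ := h5 0 (c : ℤ) (by
    have : (1 : ℤ) ≤ c := by exact_mod_cast hc
    linarith)
  obtain ⟨ρ, hρ, hlim⟩ := hM 1 0 (iv_one c) (Nat.coprime_one_left M)
  obtain ⟨U, hU, hmass⟩ := diverge
    (fun p => p.Prime ∧ ∃ δ : Qd 0 (c : ℤ), nm δ = 1 * p ∧ lat 1 0 (star δ)) ρ hρ (by
      refine hlim.congr ?_
      intro x
      congr 1
      refine Finset.sum_congr ?_ fun _ _ => rfl
      ext p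
      simp) y M₀
  -- the elements
  have hex : ∀ p ∈ U, ∃ z : ℤ × ℤ, nn (c : ℤ) z = p := by
    intro p hp
    obtain ⟨⟨_, δ, hδ, _⟩, _⟩ := hU p hp
    refine ⟨(δ.re, δ.im), ?_⟩
    rw [one_mul] at hδ
    rw [← hδ]
    unfold nn nm
    congr 1
    ring
  choose! F hF using hex
  have hinj : Set.InjOn F U := by
    intro p hp q hq hpq
    rw [← hF p hp, ← hF q hq, hpq]
  refine ⟨U.image F, ⟨?_, ?_, ?_⟩, ?_⟩
  · intro π hπ
    obtain ⟨p, hp, rfl⟩ := Finset.mem_image.1 hπ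
    rw [hF p hp]
    exact (hU p hp).1.1
  · intro π hπ
    obtain ⟨p, hp, rfl⟩ := Finset.mem_image.1 hπ
    rw [hF p hp]
    exact (hU p hp).2
  · intro π hπ π' hπ' h
    obtain ⟨p, hp, rfl⟩ := Finset.mem_image.1 hπ
    obtain ⟨q, hq, rfl⟩ := Finset.mem_image.1 hπ'
    rw [hF p hp, hF q hq] at h
    rw [h]
  · unfold mass
    rw [Finset.sum_image hinj]
    refine hmass.trans (le_of_eq ?_)
    refine Finset.sum_congr rfl ?_
    intro p hp
    rw [hF p hp]

end N654.PY
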