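import Pool.Agent.N654.PY.GP
import Pool.Agent.N711.LC.LC5
import Pool.Agent.N615.RC.RC0
import Pool.Agent.N864.RC.Pnt

set_option autoImplicit false

/-! Project PY (helper912), part PY10, without hypotheses. -/

namespace N654.PY

/-- many primes are norms of elements of `ℤ[√(-c)]` -/
theorem gp : Pool.Agent.N912.PY.S_GP :=
  gp_of (Pool.Agent.N711.LC.lc5 Pool.Agent.N615.RC.rc0 Pool.Agent.N864.RC.rc1)

end N654.PY
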